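import Pool.Agent.Y817.WK.Stm
import Pool.Agent.Y786.ISO.Arith

set_option autoImplicit false

/-!
WK-ARITH (helper817, MP_f5ceca_al): c.e. sets are defined by finite systems of quadratic equations
over the natural numbers.
-/

namespace Pool.Agent.Y246.WK

open Pool.Agent.Helper844.Sys Pool.Agent.Y817.WK

/-- substitution of linear forms in a quadratic equation -/
def qq {V W : Type} (f : V → W → ℤ) (q : Eqn V) : Quad W where
  A := fun u w => q.e * (f q.i u * f q.j w)
  B := fun w => q.a * f q.k w + q.b * f q.l w + q.c * f q.m w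
  d := q.d

theorem qq_val {V W : Type} [Fintype W] (f : V → W → ℤ) (q : Eqn V) (y : W → ℤ) :
    (qq f q).val y = 0 ↔ q.Holds (fun v => ∑ w, f v w * y w) := by
  have h1 : ∑ i, ∑ k, q.e * (f q.i i * f q.j k) * y i * y k =
      q.e * ((∑ w, f q.i w * y w) * ∑ w, f q.j w * y w) := by
    rw [Finset.sum_mul_sum, Finset.mul_sum]
    refine Finset.sum_congr rfl fun i _ => ?_
    rw [Finset.mul_sum]
    refine Finset.sum_congr rfl fun k _ => ?_
    ring
  have h2 : ∑ k, (q.a * f q.k k + q.b * f q.l k + q.c * f q.m k) * y k =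
      q.a * (∑ w, f q.k w * y w) + q.b * (∑ w, f q.l w * y w) + q.c * ∑ w, f q.m w * y w := by
    rw [Finset.mul_sum, Finset.mul_sum, Finset.mul_sum, ← Finset.sum_add_distrib,
      ← Finset.sum_add_distrib]
    refine Finset.sum_congr rfl fun k _ => ?_
    ring
  have h3 : (qq f q).val y = q.e * ((∑ w, f q.i w * y w) * ∑ w, f q.j w * y w) +
      (q.a * (∑ w, f q.k w * y w) + q.b * (∑ w, f q.l w * y w) + q.c * ∑ w, f q.m w * y w) +
      q.d := by
    rw [← h1, ← h2]
    rfl
  rw [h3]
  unfold Eqn.Holds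
  constructor
  · intro h
    linarith
  · intro h
    linarith

theorem t : Pool.Agent.Y817.WK.StmArith := by
  intro S hS
  classical
  obtain ⟨V, iV, F, L, hL⟩ := exists_system _ (Pool.Agent.Helper844.Dio.dprm hS)
  let W : Type := (V × Bool) ⊕ Unit
  let E : W ≃ Fin (Fintype.card W) := Fintype.equivFin W
  let f : V → Fin (Fintype.card W) → ℤ := fun v t =>
    (if E (Sum.inl (v, true)) = t then 1 else 0) - (if E (Sum.inl (v, false)) = t then 1 else 0)
  let N : Fin (Fintype.card W) := E (Sum.inr ())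
  have hf : ∀ (v : V) (y : Fin (Fintype.card W) → ℤ),
      ∑ w, f v w * y w = y (E (Sum.inl (v, true))) - y (E (Sum.inl (v, false))) := by
    intro v y
    have h : ∀ w, f v w * y w = (if E (Sum.inl (v, true)) = w then y w else 0) -
        (if E (Sum.inl (v, false)) = w then y w else 0) := by
      intro w
      show ((if E (Sum.inl (v, true)) = w then (1 : ℤ) else 0) -
        (if E (Sum.inl (v, false)) = w then 1 else 0)) * y w = _
      split_ifs <;> ring
    rw [Finset.sum_congr rfl fun w _ => h w, Finset.sum_sub_distrib, Finset.sum_ite_eq,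
      Finset.sum_ite_eq, if_pos (Finset.mem_univ _), if_pos (Finset.mem_univ _)]
  let q0 : Quad (Fin (Fintype.card W)) :=
    { A := fun _ _ => 0
      B := fun t => f F t + 4 * (if N = t then 1 else 0)
      d := -1 }
  have hq0 : ∀ y : Fin (Fintype.card W) → ℤ,
      q0.val y = (∑ w, f F w * y w) + 4 * y N - 1 := by
    intro y
    have h1 : q0.val y = (∑ i : Fin (Fintype.card W), ∑ k : Fin (Fintype.card W),
        0 * y i * y k) + (∑ k, (f F k + 4 * (if N = k then 1 else 0)) * y k) + -1 := rfl
    have h2 : ∀ k, (f F k + 4 * (if N = k then 1 else 0)) * y k =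
        f F k * y k + (if N = k then 4 * y k else 0) := by
      intro k
      split_ifs <;> ring
    rw [h1, Finset.sum_congr rfl fun w _ => h2 w, Finset.sum_add_distrib, Finset.sum_ite_eq,
      if_pos (Finset.mem_univ _)]
    simp only [zero_mul, Finset.sum_const_zero]
    ring
  let L' : List (Quad (Fin (Fintype.card W))) := q0 :: L.map (qq f)
  refine ⟨Fintype.card W, L'.length, N, fun s => L'.get s, fun c => ?_⟩
  have hall : ∀ y : Fin (Fintype.card W) → ℤ, (∀ s, (L'.get s).val y = 0) ↔
      (∑ w, f F w * y w) + 4 * y N - 1 = 0 ∧ ∀ q ∈ L, q.Holds (fun v => ∑ w, f v w * y w) := by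
    intro y
    have h1 : (∀ s, (L'.get s).val y = 0) ↔ ∀ q ∈ L', q.val y = 0 := by
      constructor
      · intro h q hq
        obtain ⟨s, rfl⟩ := List.mem_iff_get.1 hq
        exact h s
      · intro h s
        exact h _ (List.get_mem _ _)
    rw [h1]
    constructor
    · intro h
      refine ⟨?_, fun q hq => ?_⟩
      · rw [← hq0]
        exact h q0 List.mem_cons_self
      · rw [← qq_val]
        exact h _ (List.mem_cons_of_mem _ (List.mem_map_of_mem hq))
    · rintro ⟨h2, h3⟩ q hq
      rcases List.mem_cons.1 hq with rfl | hq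
      · rw [hq0]
        exact h2
      · obtain ⟨q', hq', rfl⟩ := List.mem_map.1 hq
        rw [qq_val]
        exact h3 q' hq'
  constructor
  · intro hc
    obtain ⟨x, hx, hxL⟩ := (hL (1 - 4 * c)).2 ⟨c, hc, rfl⟩
    let y0 : W → ℕ := Sum.elim
      (fun p => if p.2 then (x p.1).toNat else (-x p.1).toNat) (fun _ => c)
    let y : Fin (Fintype.card W) → ℕ := fun t => y0 (E.symm t)
    have hy1 : ∀ v, y (E (Sum.inl (v, true))) = (x v).toNat := by
      intro v
      show y0 (E.symm (E (Sum.inl (v, true)))) = _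
      rw [Equiv.symm_apply_apply]
      rfl
    have hy2 : ∀ v, y (E (Sum.inl (v, false))) = (-x v).toNat := by
      intro v
      show y0 (E.symm (E (Sum.inl (v, false)))) = _
      rw [Equiv.symm_apply_apply]
      rfl
    have hy3 : y N = c := by
      show y0 (E.symm (E (Sum.inr ()))) = _
      rw [Equiv.symm_apply_apply]
      rfl
    have hxy : (fun v => ∑ w, f v w * ((y w : ℕ) : ℤ)) = x := by
      funext v
      rw [hf v (fun w => ((y w : ℕ) : ℤ)), hy1, hy2]
      omega
    refine ⟨y, hy3, (hall _).2 ⟨?_, ?_⟩⟩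
    · have h1 := congrFun hxy F
      rw [h1, hx, hy3]
      ring
    · rw [hxy]
      exact hxL
  · rintro ⟨y, hy, hyL⟩
    obtain ⟨h1, h2⟩ := (hall _).1 hyL
    obtain ⟨n, hn, hn2⟩ := (hL (∑ w, f F w * ((y w : ℕ) : ℤ))).1
      ⟨fun v => ∑ w, f v w * ((y w : ℕ) : ℤ), rfl, h2⟩
    have h3 : n = c := by
      rw [hy] at h1
      omega
    rw [← h3]
    exact hn

end Pool.Agent.Y246.WK
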